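import Pool.Agent.Helper54.PT.Defs
import Pool.Agent.Helper17.TW.B1B2

set_option autoImplicit false

/-!
# Few large degrees (module B4)
-/

namespace Pool.Agent.Helper49.TWB4

open Finset Filter Topology Pool.Agent.Helper54.PT

section count

variable {P U : Type} [DecidableEq P] [Fintype U] [DecidableEq U]

/-- Number of tuples of pairwise disjoint sets with given unions. -/
theorem card_fiber_le (S : Finset (U → Finset P)) (L : Finset U) (D₁ D₂ : Finset P)
    (hd : Disjoint D₁ D₂) (hS : ∀ D ∈ S, (∀ u u', u ≠ u' → Disjoint (D u) (D u')) ∧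
      L.biUnion D = D₁ ∧ (univ \ L).biUnion D = D₂) :
    S.card ≤ L.card ^ D₁.card * Fintype.card U ^ D₂.card := by
  classical
  let T : {p // p ∈ D₁ ∪ D₂} → Finset (Finset U) := fun p =>
    if p.1 ∈ D₁ then L.image (fun u => {u}) else univ.image (fun u => {u})
  have h1 : S.card ≤ (Fintype.piFinset T).card := by
    refine card_le_card_of_injOn (fun D p => univ.filter (fun u => p.1 ∈ D u)) ?_ ?_
    · intro D hD
      obtain ⟨hdis, h1, h2⟩ := hS D hD
      simp only [mem_coe, Fintype.mem_piFinset]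
      rintro ⟨p, hp⟩
      have hex : ∀ u, p ∈ D u → univ.filter (fun u => p ∈ D u) = {u} := by
        intro u hu
        ext u'
        simp only [mem_filter, mem_univ, true_and, mem_singleton]
        constructor
        · intro hu'
          by_contra hne
          exact disjoint_left.1 (hdis u' u hne) hu' hu
        · rintro rfl
          exact hu
      by_cases hp1 : p ∈ D₁
      · have : ∃ u ∈ L, p ∈ D u := by
          rw [← h1] at hp1
          simpa using hp1
        obtain ⟨u, huL, hu⟩ := this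
        simp only [T, hp1, if_true, mem_image]
        exact ⟨u, huL, (hex u hu).symm⟩
      · have hp2 : p ∈ D₂ := (mem_union.1 hp).resolve_left hp1
        have : ∃ u, u ∉ L ∧ p ∈ D u := by
          rw [← h2] at hp2
          simpa using hp2
        obtain ⟨u, _, hu⟩ := this
        simp only [T, hp1, if_false, mem_image]
        exact ⟨u, mem_univ _, (hex u hu).symm⟩
    · intro D hD D' hD' hDD
      obtain ⟨_, h1, h2⟩ := hS D (by simpa using hD)
      obtain ⟨_, h1', h2'⟩ := hS D' (by simpa using hD')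
      have key : ∀ (E E' : U → Finset P), L.biUnion E = D₁ → (univ \ L).biUnion E = D₂ →
          ((fun (p : {p // p ∈ D₁ ∪ D₂}) => univ.filter (fun u => p.1 ∈ E u)) =
            fun (p : {p // p ∈ D₁ ∪ D₂}) => univ.filter (fun u => p.1 ∈ E' u)) →
          ∀ u, E u ⊆ E' u := by
        intro E E' e1 e2 e3 u p hp
        have hp12 : p ∈ D₁ ∪ D₂ := by
          by_cases hu : u ∈ L
          · rw [mem_union, ← e1]
            exact Or.inl (mem_biUnion.2 ⟨u, hu, hp⟩)
          · rw [mem_union, ← e2]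
            exact Or.inr (mem_biUnion.2 ⟨u, by simp [hu], hp⟩)
        have := congrFun e3 ⟨p, hp12⟩
        have hmem : u ∈ univ.filter (fun u => p ∈ E u) := by simp [hp]
        rw [show univ.filter (fun u => p ∈ E u) = univ.filter (fun u => p ∈ E' u) from this] at hmem
        simpa using hmem
      funext u
      exact Subset.antisymm (key D D' h1 h2 hDD u) (key D' D h1' h2' hDD.symm u)
  refine h1.trans (le_of_eq ?_)
  rw [Fintype.card_piFinset]
  have h2 : ∀ p : {p // p ∈ D₁ ∪ D₂}, (T p).card = if p.1 ∈ D₁ then L.card else Fintype.card U := by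
    intro p
    by_cases hp : p.1 ∈ D₁
    · simp only [T, hp, if_true]
      exact card_image_of_injective _ singleton_injective
    · simp only [T, hp, if_false]
      rw [card_image_of_injective _ singleton_injective, card_univ]
  simp only [h2]
  rw [prod_coe_sort (D₁ ∪ D₂) (fun p => if p ∈ D₁ then L.card else Fintype.card U),
    prod_union hd]
  congr 1
  · rw [prod_congr rfl (g := fun _ => L.card) (fun p hp => by simp [hp]), prod_const]
  · rw [prod_congr rfl (g := fun _ => Fintype.card U)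
      (fun p hp => by simp [disjoint_right.1 hd hp]), prod_const]

end count

section

variable {ℓ : ℕ} {σ : Type} (X : PData ℓ σ) {U : Type} [Fintype U] [DecidableEq U]

omit [Fintype U] [DecidableEq U] in
theorem dg_biUnion (L : Finset U) (D : U → Finset X.P)
    (hD : ∀ u u', u ≠ u' → Disjoint (D u) (D u')) :
    X.dg (L.biUnion D) = ∑ u ∈ L, X.dg (D u) := by
  unfold PData.dg
  rw [sum_biUnion]
  intro u _ u' _ h
  exact hD u u' h

omit [Fintype U] [DecidableEq U] in
theorem card_biUnion' (L : Finset U) (D : U → Finset X.P)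
    (hD : ∀ u u', u ≠ u' → Disjoint (D u) (D u')) :
    (L.biUnion D).card = ∑ u ∈ L, (D u).card :=
  card_biUnion fun u _ u' _ h => hD u u' h

/-- The set of the large indices. -/
def lg (K n : ℕ) (m : U → ℕ) : Finset U := univ.filter fun u => n ≤ m u ^ K

theorem main_ineq (M K n Y : ℕ) (hM : 1 ≤ M)
    (hY : ∀ m : U → ℕ, ∑ u ∈ univ \ lg K n m, m u ≤ Y) :
    ∑ m ∈ (piAntidiag (univ : Finset U) n).filter (fun m => (lg K n m).card < M),
        ∑ D ∈ X.tup m, ((M : ℝ)⁻¹) ^ (∑ u, (D u).card) ≤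
      ∑ L ∈ (univ : Finset (Finset U)).filter (fun L => L.card < M), ∑ k ∈ range (Y + 1),
        ∑ E ∈ X.sq k ×ˢ X.sq (n - k),
          ((L.card : ℝ) / M) ^ E.2.card * ((Fintype.card U : ℝ) / M) ^ E.1.card := by
  classical
  have hM0 : (M : ℝ) ≠ 0 := by positivity
  rw [sum_sigma']
  have e1 : (∑ L ∈ (univ : Finset (Finset U)).filter (fun L => L.card < M), ∑ k ∈ range (Y + 1),
      ∑ E ∈ X.sq k ×ˢ X.sq (n - k),
          ((L.card : ℝ) / M) ^ E.2.card * ((Fintype.card U : ℝ) / M) ^ E.1.card) =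
      ∑ y ∈ ((univ : Finset (Finset U)).filter (fun L => L.card < M)).sigma
        (fun _ => (range (Y + 1)).sigma (fun k => X.sq k ×ˢ X.sq (n - k))),
          ((y.1.card : ℝ) / M) ^ y.2.2.2.card * ((Fintype.card U : ℝ) / M) ^ y.2.2.1.card := by
    rw [sum_sigma]
    refine sum_congr rfl fun L _ => ?_
    rw [sum_sigma]
  rw [e1]
  let g : (Σ _ : U → ℕ, U → Finset X.P) → (Σ _ : Finset U, Σ _ : ℕ, Finset X.P × Finset X.P) :=
    fun x => ⟨lg K n x.1, ⟨∑ u ∈ univ \ lg K n x.1, x.1 u,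
      ((univ \ lg K n x.1).biUnion x.2, (lg K n x.1).biUnion x.2)⟩⟩
  rw [← sum_fiberwise_of_maps_to (g := g)
    (t := ((univ : Finset (Finset U)).filter (fun L => L.card < M)).sigma
        (fun _ => (range (Y + 1)).sigma (fun k => X.sq k ×ˢ X.sq (n - k))))]
  · refine sum_le_sum fun y _ => ?_
    obtain ⟨L, k, D₂, D₁⟩ := y
    set F := ((((piAntidiag (univ : Finset U) n).filter (fun m => (lg K n m).card < M)).sigma
      fun m => X.tup m).filter fun x => g x = ⟨L, k, D₂, D₁⟩) with hF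
    have hprop : ∀ x ∈ F, (∀ u, X.dg (x.2 u) = x.1 u) ∧
        (∀ u u', u ≠ u' → Disjoint (x.2 u) (x.2 u')) ∧ L.biUnion x.2 = D₁ ∧
        (univ \ L).biUnion x.2 = D₂ := by
      intro x hx
      rw [hF, mem_filter, mem_sigma] at hx
      obtain ⟨⟨_, hx1⟩, hx2⟩ := hx
      obtain ⟨h1, h2⟩ := X.mem_tup.1 hx1
      have e := hx2
      simp only [g, Sigma.mk.injEq, heq_eq_eq, Prod.mk.injEq] at e
      obtain ⟨e1, _, e2, e3⟩ := e
      rw [e1] at e2 e3
      exact ⟨h1, h2, e3, e2⟩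
    by_cases hne : F.Nonempty
    · obtain ⟨x₀, hx₀⟩ := hne
      obtain ⟨_, hdis, hb1, hb2⟩ := hprop x₀ hx₀
      have hd : Disjoint D₁ D₂ := by
        rw [← hb1, ← hb2, disjoint_biUnion_left]
        intro u hu
        rw [disjoint_biUnion_right]
        intro u' hu'
        refine hdis u u' ?_
        rintro rfl
        simp [hu] at hu'
      have hw : ∀ x ∈ F, ((M : ℝ)⁻¹) ^ (∑ u, (x.2 u).card) =
          ((M : ℝ)⁻¹) ^ (D₁.card + D₂.card) := by
        intro x hx
        obtain ⟨_, hdis, hb1, hb2⟩ := hprop x hx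
        rw [← hb1, ← hb2, card_biUnion' X _ _ hdis, card_biUnion' X _ _ hdis,
          ← sum_union disjoint_sdiff, union_sdiff_of_subset (subset_univ L)]
      have hcard : F.card ≤ L.card ^ D₁.card * Fintype.card U ^ D₂.card := by
        have h1 : F.card = (F.image fun x => x.2).card := by
          rw [card_image_of_injOn]
          intro x hx x' hx' hxx
          have hx1 := (hprop x (by simpa using hx)).1
          have hx1' := (hprop x' (by simpa using hx')).1
          obtain ⟨m, D⟩ := x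
          obtain ⟨m', D'⟩ := x'
          simp only at hxx hx1 hx1'
          subst hxx
          have : m = m' := by
            funext u
            rw [← hx1, ← hx1']
          rw [this]
        rw [h1]
        refine card_fiber_le _ L D₁ D₂ hd fun D hD => ?_
        obtain ⟨x, hx, rfl⟩ := mem_image.1 hD
        exact (hprop x hx).2
      calc ∑ x ∈ F, ((M : ℝ)⁻¹) ^ (∑ u, (x.2 u).card)
          = F.card * ((M : ℝ)⁻¹) ^ (D₁.card + D₂.card) := by
            rw [sum_congr rfl hw, sum_const, nsmul_eq_mul]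
        _ ≤ ((L.card ^ D₁.card * Fintype.card U ^ D₂.card : ℕ) : ℝ) *
            ((M : ℝ)⁻¹) ^ (D₁.card + D₂.card) := by
            refine mul_le_mul_of_nonneg_right ?_ (by positivity)
            exact_mod_cast hcard
        _ = ((L.card : ℝ) / M) ^ D₁.card * ((Fintype.card U : ℝ) / M) ^ D₂.card := by
            push_cast
            rw [div_eq_mul_inv, div_eq_mul_inv, mul_pow, mul_pow, pow_add]
            ring
    · rw [not_nonempty_iff_eq_empty.1 hne, sum_empty]
      positivity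
  · intro x hx
    rw [mem_sigma, mem_filter, mem_piAntidiag] at hx
    obtain ⟨⟨⟨hx1, _⟩, hx2⟩, hx3⟩ := hx
    obtain ⟨h1, h2⟩ := X.mem_tup.1 hx3
    simp only [g, mem_sigma, mem_filter, mem_univ, true_and, mem_range, mem_product, X.mem_sq]
    refine ⟨hx2, Nat.lt_succ_of_le (hY x.1), ?_, ?_⟩
    · rw [dg_biUnion X _ _ h2]
      exact sum_congr rfl fun u _ => h1 u
    · rw [dg_biUnion X _ _ h2, sum_congr rfl fun u _ => h1 u]
      have h3 : ∑ u ∈ lg K n x.1, x.1 u + ∑ u ∈ univ \ lg K n x.1, x.1 u = n := by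
        rw [← sum_union disjoint_sdiff, union_sdiff_of_subset (subset_univ _)]
        exact hx1
      exact Nat.eq_sub_of_add_eq h3

theorem small_sum_le (K n : ℕ) (hK : 1 ≤ K) (m : U → ℕ) :
    ∑ u ∈ univ \ lg K n m, m u ≤ ⌊(Fintype.card U : ℝ) * (n : ℝ) ^ ((K : ℝ)⁻¹)⌋₊ := by
  classical
  rw [Nat.le_floor_iff (by positivity)]
  push_cast
  have hK0 : (K : ℝ) ≠ 0 := by positivity
  have h1 : ∀ u ∈ univ \ lg K n m, (m u : ℝ) ≤ (n : ℝ) ^ ((K : ℝ)⁻¹) := by
    intro u hu
    have hu' : m u ^ K < n := by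
      by_contra h
      have h3 : u ∈ lg K n m := Finset.mem_filter.2 ⟨Finset.mem_univ _, not_lt.1 h⟩
      exact (Finset.mem_sdiff.1 hu).2 h3
    have h2 : (m u : ℝ) ^ K ≤ n := by exact_mod_cast hu'.le
    calc (m u : ℝ) = ((m u : ℝ) ^ (K : ℝ)) ^ ((K : ℝ)⁻¹) := by
          rw [← Real.rpow_mul (by positivity), mul_inv_cancel₀ hK0, Real.rpow_one]
      _ ≤ (n : ℝ) ^ ((K : ℝ)⁻¹) := by
          rw [Real.rpow_natCast]
          exact Real.rpow_le_rpow (by positivity) h2 (by positivity)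
  calc ∑ u ∈ univ \ lg K n m, (m u : ℝ) ≤ ∑ _u ∈ univ \ lg K n m, (n : ℝ) ^ ((K : ℝ)⁻¹) :=
        sum_le_sum h1
    _ ≤ (Fintype.card U : ℝ) * (n : ℝ) ^ ((K : ℝ)⁻¹) := by
        rw [sum_const, nsmul_eq_mul]
        refine mul_le_mul_of_nonneg_right ?_ (by positivity)
        exact_mod_cast card_le_univ _

theorem few_large' {q : ℕ} (hq : 2 ≤ q) (M : ℕ) (hM : 1 ≤ M)
    (b2 : ∀ h : ℝ, 0 ≤ h → ∃ C : ℝ, ∀ n : ℕ,
      ∑ D ∈ X.sq n, h ^ D.card ≤ C * (q : ℝ) ^ n * (n + 1 : ℝ) ^ (h - 1) ∧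
      ∑ k ∈ range (n + 1), (∑ D ∈ X.sq k, h ^ D.card) / (q : ℝ) ^ k ≤ C * (n + 1 : ℝ) ^ h) :
    ∃ K₀ : ℕ, ∀ K : ℕ, K₀ ≤ K → Tendsto (fun n : ℕ =>
      (∑ m ∈ (piAntidiag (univ : Finset U) n).filter (fun m =>
          (univ.filter fun u => n ≤ m u ^ K).card < M),
        ∑ D ∈ X.tup m, ((M : ℝ)⁻¹) ^ (∑ u, (D u).card)) / (q : ℝ) ^ n) atTop (𝓝 0) := by
  classical
  have hM0 : (0 : ℝ) < M := by exact_mod_cast hM
  have hM1 : (1 : ℝ) ≤ M := by exact_mod_cast hM
  have hq0 : (0 : ℝ) < q := by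
    have : 0 < q := by omega
    exact_mod_cast this
  set u : ℝ := (Fintype.card U : ℝ) with hu
  have hu0 : 0 ≤ u := by positivity
  set h1 : ℝ := 1 - (M : ℝ)⁻¹ with hh1
  have hinv : (M : ℝ)⁻¹ ≤ 1 := inv_le_one_of_one_le₀ hM1
  have hinv0 : (0 : ℝ) < (M : ℝ)⁻¹ := by positivity
  have h1nn : 0 ≤ h1 := by linarith
  set h2 : ℝ := u / M with hh2
  have h2nn : 0 ≤ h2 := by positivity
  obtain ⟨C₁', hC₁'⟩ := b2 h1 h1nn
  obtain ⟨C₂', hC₂'⟩ := b2 h2 h2nn
  set C₁ : ℝ := |C₁'| with hC₁d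
  set C₂ : ℝ := |C₂'| with hC₂d
  have hC₁ : ∀ n : ℕ, ∑ D ∈ X.sq n, h1 ^ D.card ≤ C₁ * (q : ℝ) ^ n * (n + 1 : ℝ) ^ (h1 - 1) := by
    intro n
    refine (hC₁' n).1.trans ?_
    gcongr
    exact le_abs_self _
  have hC₂ : ∀ n : ℕ, ∑ k ∈ range (n + 1), (∑ D ∈ X.sq k, h2 ^ D.card) / (q : ℝ) ^ k ≤
      C₂ * (n + 1 : ℝ) ^ h2 := by
    intro n
    refine (hC₂' n).2.trans ?_
    gcongr
    exact le_abs_self _
  have hC₁0 : 0 ≤ C₁ := abs_nonneg _
  have hC₂0 : 0 ≤ C₂ := abs_nonneg _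
  refine ⟨Fintype.card U + 2, fun K hK => ?_⟩
  have hK2 : 2 ≤ K := by omega
  have hKpos : (0 : ℝ) < K := by
    have : 0 < K := by omega
    exact_mod_cast this
  have huK : u < K := by
    rw [hu]
    have : Fintype.card U < K := by omega
    exact_mod_cast this
  -- the number of large parts
  set Y : ℕ → ℕ := fun n => ⌊u * (n : ℝ) ^ ((K : ℝ)⁻¹)⌋₊ with hY
  set c : ℝ := (M : ℝ)⁻¹ * (1 - u / K) with hc
  have hc0 : 0 < c := by
    have : u / K < 1 := (div_lt_one hKpos).2 huK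
    have : 0 < 1 - u / K := by linarith
    positivity
  -- the upper bound
  have hbound : ∀ᶠ n : ℕ in atTop,
      (∑ m ∈ (piAntidiag (univ : Finset U) n).filter (fun m =>
          (univ.filter fun u => n ≤ m u ^ K).card < M),
        ∑ D ∈ X.tup m, ((M : ℝ)⁻¹) ^ (∑ u, (D u).card)) / (q : ℝ) ^ n ≤
      ((univ : Finset (Finset U)).filter (fun L => L.card < M)).card *
        (C₁ * 2 ^ ((M : ℝ)⁻¹) * (C₂ * (u + 1) ^ h2)) * (n : ℝ) ^ (-c) := by
    -- eventually `Y n ≤ n / 2`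
    have hYn : ∀ᶠ n : ℕ in atTop, u * (n : ℝ) ^ ((K : ℝ)⁻¹) ≤ (n : ℝ) / 2 := by
      have h3 : Tendsto (fun n : ℕ => (n : ℝ) ^ (1 - (K : ℝ)⁻¹)) atTop atTop := by
        refine (tendsto_rpow_atTop ?_).comp tendsto_natCast_atTop_atTop
        have : (K : ℝ)⁻¹ < 1 := inv_lt_one_of_one_lt₀ (by
          have : 1 < K := by omega
          exact_mod_cast this)
        linarith
      filter_upwards [h3.eventually_ge_atTop (2 * u), eventually_ge_atTop 1] with n hn hn1
      have hn0 : (0 : ℝ) < n := by exact_mod_cast hn1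
      have h4 : (n : ℝ) = (n : ℝ) ^ ((K : ℝ)⁻¹) * (n : ℝ) ^ (1 - (K : ℝ)⁻¹) := by
        rw [← Real.rpow_add hn0, add_sub_cancel, Real.rpow_one]
      have h5 : 0 ≤ (n : ℝ) ^ ((K : ℝ)⁻¹) := by positivity
      nlinarith [mul_le_mul_of_nonneg_left hn h5]
    filter_upwards [hYn, eventually_ge_atTop 1] with n hn hn1
    have hn0 : (0 : ℝ) < n := by exact_mod_cast hn1
    have hn1' : (1 : ℝ) ≤ n := by exact_mod_cast hn1
    rw [div_le_iff₀ (by positivity)]
    refine (main_ineq X M K n (Y n) hM (fun m => small_sum_le K n (by omega) m)).trans ?_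
    have hYle : ((Y n : ℕ) : ℝ) ≤ u * (n : ℝ) ^ ((K : ℝ)⁻¹) := Nat.floor_le (by positivity)
    have hroot : (1 : ℝ) ≤ (n : ℝ) ^ ((K : ℝ)⁻¹) := Real.one_le_rpow hn1' (by positivity)
    -- each term
    have hterm : ∀ L ∈ (univ : Finset (Finset U)).filter (fun L => L.card < M),
        ∑ k ∈ range (Y n + 1), ∑ E ∈ X.sq k ×ˢ X.sq (n - k),
          ((L.card : ℝ) / M) ^ E.2.card * ((Fintype.card U : ℝ) / M) ^ E.1.card ≤
        (C₁ * 2 ^ ((M : ℝ)⁻¹) * (C₂ * (u + 1) ^ h2)) * (n : ℝ) ^ (-c) * (q : ℝ) ^ n := by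
      intro L hL
      have hLM : (L.card : ℝ) / M ≤ h1 := by
        have h3 := (mem_filter.1 hL).2
        have h4 : (L.card : ℝ) + 1 ≤ M := by exact_mod_cast h3
        rw [hh1, div_le_iff₀ hM0, sub_mul, inv_mul_cancel₀ hM0.ne', one_mul]
        linarith
      have hk : ∀ k ∈ range (Y n + 1), ∑ E ∈ X.sq k ×ˢ X.sq (n - k),
          ((L.card : ℝ) / M) ^ E.2.card * ((Fintype.card U : ℝ) / M) ^ E.1.card ≤
          (C₁ * 2 ^ ((M : ℝ)⁻¹) * (n : ℝ) ^ (-(M : ℝ)⁻¹) * (q : ℝ) ^ n) *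
            ((∑ D ∈ X.sq k, h2 ^ D.card) / (q : ℝ) ^ k) := by
        intro k hk
        have hkY : k ≤ Y n := Nat.lt_succ_iff.1 (mem_range.1 hk)
        have hkn2 : (k : ℝ) ≤ (n : ℝ) / 2 := by
          have : (k : ℝ) ≤ (Y n : ℕ) := by exact_mod_cast hkY
          linarith
        have hkn : k ≤ n := by
          have : (k : ℝ) ≤ n := by linarith
          exact_mod_cast this
        rw [sum_product]
        have e1 : ∀ D₂ ∈ X.sq k, ∑ D₁ ∈ X.sq (n - k),
            ((L.card : ℝ) / M) ^ D₁.card * ((Fintype.card U : ℝ) / M) ^ D₂.card ≤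
            (C₁ * 2 ^ ((M : ℝ)⁻¹) * (n : ℝ) ^ (-(M : ℝ)⁻¹) * ((q : ℝ) ^ n / (q : ℝ) ^ k)) *
              h2 ^ D₂.card := by
          intro D₂ _
          rw [← sum_mul]
          refine mul_le_mul_of_nonneg_right ?_ (by positivity)
          calc ∑ D₁ ∈ X.sq (n - k), ((L.card : ℝ) / M) ^ D₁.card
              ≤ ∑ D₁ ∈ X.sq (n - k), h1 ^ D₁.card :=
                sum_le_sum fun D₁ _ => pow_le_pow_left₀ (by positivity) hLM _
            _ ≤ C₁ * (q : ℝ) ^ (n - k) * (((n - k : ℕ) : ℝ) + 1) ^ (h1 - 1) := hC₁ _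
            _ ≤ C₁ * ((q : ℝ) ^ n / (q : ℝ) ^ k) * (2 ^ ((M : ℝ)⁻¹) * (n : ℝ) ^ (-(M : ℝ)⁻¹)) := by
                rw [pow_sub₀ (q : ℝ) hq0.ne' hkn, ← div_eq_mul_inv]
                refine mul_le_mul_of_nonneg_left ?_ (by positivity)
                have e2 : h1 - 1 = -(M : ℝ)⁻¹ := by rw [hh1]; ring
                rw [e2]
                have e3 : (n : ℝ) / 2 ≤ ((n - k : ℕ) : ℝ) + 1 := by
                  rw [Nat.cast_sub hkn]
                  linarith
                have e4 : ((n : ℝ) / 2) ^ (-(M : ℝ)⁻¹) = 2 ^ ((M : ℝ)⁻¹) * (n : ℝ) ^ (-(M : ℝ)⁻¹) := by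
                  rw [Real.div_rpow hn0.le (by norm_num), Real.rpow_neg (by norm_num : (0 : ℝ) ≤ 2),
                    div_inv_eq_mul, mul_comm]
                rw [← e4]
                exact Real.rpow_le_rpow_of_nonpos (by positivity) e3 (by linarith)
            _ = _ := by ring
        refine (sum_le_sum e1).trans (le_of_eq ?_)
        rw [← mul_sum]
        ring
      refine (sum_le_sum hk).trans ?_
      rw [← mul_sum]
      have h5 := hC₂ (Y n)
      have h6 : C₂ * ((Y n : ℕ) + 1 : ℝ) ^ h2 ≤ C₂ * ((u + 1) ^ h2 * (n : ℝ) ^ (u / K * (M : ℝ)⁻¹)) := by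
        refine mul_le_mul_of_nonneg_left ?_ hC₂0
        have e5 : (n : ℝ) ^ (u / K * (M : ℝ)⁻¹) = ((n : ℝ) ^ ((K : ℝ)⁻¹)) ^ h2 := by
          rw [← Real.rpow_mul hn0.le, hh2]
          congr 1
          field_simp
        rw [e5, ← Real.mul_rpow (by positivity) (by positivity)]
        refine Real.rpow_le_rpow (by positivity) ?_ h2nn
        linarith
      refine (mul_le_mul_of_nonneg_left (h5.trans h6) (by positivity)).trans (le_of_eq ?_)
      have e7 : (n : ℝ) ^ (-c) = (n : ℝ) ^ (-(M : ℝ)⁻¹) * (n : ℝ) ^ (u / K * (M : ℝ)⁻¹) := by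
        rw [← Real.rpow_add hn0, hc]
        congr 1
        ring
      rw [e7]
      ring
    refine (sum_le_sum hterm).trans (le_of_eq ?_)
    rw [sum_const, nsmul_eq_mul]
    ring
  refine squeeze_zero' (Eventually.of_forall fun n => ?_) hbound ?_
  · refine div_nonneg (sum_nonneg fun m _ => sum_nonneg fun D _ => ?_) (by positivity)
    positivity
  · have h3 : Tendsto (fun n : ℕ => (n : ℝ) ^ (-c)) atTop (𝓝 0) :=
      (tendsto_rpow_neg_atTop hc0).comp tendsto_natCast_atTop_atTop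
    simpa using h3.const_mul (((univ : Finset (Finset U)).filter (fun L => L.card < M)).card *
        (C₁ * 2 ^ ((M : ℝ)⁻¹) * (C₂ * (u + 1) ^ h2)))

end

end Pool.Agent.Helper49.TWB4

namespace Pool.Agent.Helper54.PT

open Finset Filter Topology

/-- B4: few large degrees -/
theorem few_large {ℓ : ℕ} [Fact ℓ.Prime] {σ : Type} [Fintype σ] [DecidableEq σ] (X : PData ℓ σ)
    {q : ℕ} {U : Type} [Fintype U] [DecidableEq U] (M : ℕ) (hX : X.Inputs q) (hM : 1 ≤ M) :
    ∃ K₀ : ℕ, ∀ K : ℕ, K₀ ≤ K → Tendsto (fun n : ℕ =>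
      (∑ m ∈ (piAntidiag (univ : Finset U) n).filter (fun m =>
          (univ.filter fun u => n ≤ m u ^ K).card < M),
        ∑ D ∈ X.tup m, ((M : ℝ)⁻¹) ^ (∑ u, (D u).card)) / (q : ℝ) ^ n) atTop (𝓝 0) :=
  Pool.Agent.Helper49.TWB4.few_large' X hX.two_le M hM
    (fun h h0 => sum_pow_card_le X hX.pnt hX.two_le h h0)

end Pool.Agent.Helper54.PT
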