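import Pool.Agent.Helper9.TW.St

set_option autoImplicit false

noncomputable section

namespace Pool.Agent.Helper49.TW

open Finset Filter Topology
open Pool.Agent.Helper9.TW
open Pool.Agent.Helper9.SU (QQ)

theorem list_pow_le_FIN (z : ℝ) (hz : 0 ≤ z) : ∀ l : List ℕ, (∀ x ∈ l, z ≤ (x : ℝ)) →
    z ^ l.length ≤ (l.prod : ℝ) := by
  intro l
  induction l with
  | nil => intro _; simp
  | cons x l ih =>
    intro h
    rw [List.length_cons, List.prod_cons, pow_succ, Nat.cast_mul, mul_comm]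
    exact mul_le_mul (h x (List.mem_cons_self)) (ih (fun y hy => h y (List.mem_cons_of_mem _ hy)))
      (by positivity) (Nat.cast_nonneg _)

/-- a positive integer up to `a ^ 4` without small prime factors -/
theorem omega_le_FIN {a m : ℕ} {θ : ℝ} (ha : 2 ≤ a) (hθ : 0 < θ) (hm : m ≠ 0)
    (hle : (m : ℝ) ≤ (a : ℝ) ^ (4 : ℝ)) (hp : ∀ p : ℕ, p.Prime → p ∣ m → (a : ℝ) ^ θ ≤ (p : ℝ)) :
    ArithmeticFunction.cardFactors m ≤ ⌈(4 : ℝ) / θ⌉₊ := by
  have ha1 : (1 : ℝ) < a := by exact_mod_cast (by omega : 1 < a)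
  have ha0 : (0 : ℝ) < a := by linarith
  have h1 := list_pow_le_FIN ((a : ℝ) ^ θ) (by positivity) m.primeFactorsList (fun x hx =>
    hp x (Nat.prime_of_mem_primeFactorsList hx) (Nat.dvd_of_mem_primeFactorsList hx))
  rw [Nat.prod_primeFactorsList hm, ← Real.rpow_natCast, ← Real.rpow_mul ha0.le] at h1
  have h2 : (a : ℝ) ^ (θ * (m.primeFactorsList.length : ℝ)) ≤ (a : ℝ) ^ (4 : ℝ) := h1.trans hle
  rw [Real.rpow_le_rpow_left_iff ha1] at h2
  have h3 : ((ArithmeticFunction.cardFactors m : ℕ) : ℝ) ≤ 4 / θ := by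
    rw [ArithmeticFunction.cardFactors_apply, le_div_iff₀ hθ]
    linarith
  have h4 := h3.trans (Nat.le_ceil (4 / θ))
  exact_mod_cast h4

theorem box_FIN {a p j0 : ℕ} {ω : ℝ} : ∀ k : ℕ, j0 ≤ k → (a : ℝ) ^ ((j0 : ℝ) * ω) ≤ (p : ℝ) →
    (p : ℝ) < (a : ℝ) ^ ((k : ℝ) * ω) → ∃ i, j0 ≤ i ∧ i < k ∧ (a : ℝ) ^ ((i : ℝ) * ω) ≤ (p : ℝ) ∧
      (p : ℝ) < (a : ℝ) ^ (((i : ℝ) + 1) * ω) := by
  intro k hk h0
  induction k, hk using Nat.le_induction with
  | base => intro h; exact absurd h (not_lt.2 h0)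
  | succ k hk ih =>
    intro h
    by_cases h1 : (p : ℝ) < (a : ℝ) ^ ((k : ℝ) * ω)
    · obtain ⟨i, h2, h3, h4⟩ := ih h1
      exact ⟨i, h2, by omega, h4⟩
    · refine ⟨k, hk, by omega, not_lt.1 h1, ?_⟩
      push_cast at h
      exact h

theorem hFIN (h10 : StC10) (h1 : StC1) (hPT : StPT) : StFIN := by
  classical
  obtain ⟨u, j0, hu, hj0, hj0u, c, hc, a₀, hC⟩ := h10
  set ω : ℝ := 1 / (4000 * (u : ℝ)) with hω
  set θ : ℝ := (j0 : ℝ) * ω with hθ
  have hur : (0 : ℝ) < u := by exact_mod_cast (by omega : 0 < u)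
  have hωp : 0 < ω := by rw [hω]; positivity
  have hj0r : (0 : ℝ) < j0 := by exact_mod_cast (by omega : 0 < j0)
  have hθp : 0 < θ := by rw [hθ]; positivity
  refine ⟨⌈(4 : ℝ) / θ⌉₊, a₀ + 5 + ⌈Real.exp (2 / c)⌉₊, ?_⟩
  intro n hn
  obtain ⟨a, rfl⟩ : ∃ a, n = a + 1 := ⟨n - 1, by omega⟩
  have haa : a₀ ≤ a := by omega
  have ha4 : 4 ≤ a := by omega
  have ha4r : (4 : ℝ) ≤ a := by exact_mod_cast ha4
  have ha1 : (1 : ℝ) < a := by linarith
  have hexp : Real.exp (2 / c) ≤ a := by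
    have h2 := Nat.le_ceil (Real.exp (2 / c))
    have h3 : ((⌈Real.exp (2 / c)⌉₊ : ℕ) : ℝ) ≤ a := by exact_mod_cast (by omega)
    linarith
  have hlog : 2 / c ≤ Real.log a := by
    rw [Real.le_log_iff_exp_le (by linarith)]
    exact hexp
  have hlogp : 0 < Real.log a := lt_of_lt_of_le (by positivity) hlog
  obtain ⟨b0, hb0, hb0'⟩ := h1.1 a
  have hS := hC a b0 haa hb0
  set f : ℕ → ℝ := fun b => q0 a θ b * ind a ω j0 (1123 * u) (a * b + 1) *
      (1 - ∑ j ∈ Ico (1123 * u) (3996 * u), 10021 / 10000 * (1 - (j : ℝ) / (3996 * u)) *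
        (ej a ω j (a * b + 1) : ℝ)) with hf
  set S : Finset ℕ := ((B1 a θ).filter (fun b => b % 30 = b0)).filter (fun b => 0 < f b) with hSdef
  have hsumnn : ∀ b : ℕ, 0 ≤ ∑ j ∈ Ico (1123 * u) (3996 * u),
      10021 / 10000 * (1 - (j : ℝ) / (3996 * u)) * (ej a ω j (a * b + 1) : ℝ) := by
    intro b
    apply Finset.sum_nonneg
    intro j hj
    rw [Finset.mem_Ico] at hj
    have : (j : ℝ) ≤ 3996 * u := by exact_mod_cast hj.2.le
    have h2 : 0 ≤ 1 - (j : ℝ) / (3996 * u) := by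
      rw [sub_nonneg, div_le_one (by positivity)]
      exact this
    positivity
  have hf1 : ∀ b, f b ≤ 1 := by
    intro b
    have h2 := hsumnn b
    simp only [hf]
    unfold q0 ind
    split_ifs <;> simp <;> linarith
  have hcount : ∑ b ∈ (B1 a θ).filter (fun b => b % 30 = b0), f b ≤ (S.card : ℝ) := by
    calc ∑ b ∈ (B1 a θ).filter (fun b => b % 30 = b0), f b
        ≤ ∑ b ∈ (B1 a θ).filter (fun b => b % 30 = b0), (if 0 < f b then (1 : ℝ) else 0) := by
          apply Finset.sum_le_sum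
          intro b _
          split_ifs with h
          · exact hf1 b
          · exact not_lt.1 h
      _ = (S.card : ℝ) := by
          rw [← Finset.sum_filter, Finset.sum_const, nsmul_eq_mul, mul_one]
  -- properties of the members
  have hmem : ∀ b ∈ S, a / 4 < b ∧ b ≤ a / 2 ∧
      ArithmeticFunction.cardFactors (a * b + 1) ≤ 2 ∧
      ArithmeticFunction.cardFactors ((a + 2 - b) ^ 2 + (a + 1) * (b - 1) ^ 2) ≤ ⌈(4 : ℝ) / θ⌉₊ := by
    intro b hb
    rw [hSdef, Finset.mem_filter, Finset.mem_filter] at hb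
    obtain ⟨⟨hB1, hb30⟩, hpos⟩ := hb
    unfold B1 at hB1
    rw [Finset.mem_filter] at hB1
    obtain ⟨hBb, hsq⟩ := hB1
    have hBb' := hBb
    unfold Bb at hBb'
    rw [Finset.mem_Ioc] at hBb'
    have hq : q0 a θ b = 1 := by
      by_contra hcon
      have : q0 a θ b = 0 := by
        unfold q0 at hcon ⊢
        split_ifs at hcon ⊢ with h
        · exact absurd rfl hcon
        · rfl
      simp only [hf, this, zero_mul, lt_irrefl] at hpos
    have hi : ind a ω j0 (1123 * u) (a * b + 1) = 1 := by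
      by_contra hcon
      have : ind a ω j0 (1123 * u) (a * b + 1) = 0 := by
        unfold ind at hcon ⊢
        split_ifs at hcon ⊢ with h
        · rfl
        · exact absurd rfl hcon
      simp only [hf, this, mul_zero, zero_mul, lt_irrefl] at hpos
    have hs : 10021 / 10000 * ∑ j ∈ Ico (1123 * u) (3996 * u), (1 - (j : ℝ) / (3996 * u)) *
        (ej a ω j (a * b + 1) : ℝ) < 1 := by
      simp only [hf, hq, hi, one_mul, sub_pos] at hpos
      rw [Finset.mul_sum]
      convert hpos using 2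
      ring
    have hq' : ∀ p ∈ Qs a θ, ¬ (p : ℤ) ∣ Fb a b := by
      by_contra hcon
      unfold q0 at hq
      rw [if_neg hcon] at hq
      norm_num at hq
    have hi' : ¬ ∃ p ∈ Pr a ω j0 (1123 * u), p ∣ a * b + 1 := by
      intro hcon
      unfold ind at hi
      rw [if_pos hcon] at hi
      norm_num at hi
    obtain ⟨h2, h3, h5⟩ := hb0' b hb30
    have hbig : ∀ p : ℕ, p.Prime → (p : ℤ) ∣ Fb a b → (a : ℝ) ^ θ ≤ (p : ℝ) := by
      intro p hp hd
      by_contra hcon
      push Not at hcon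
      by_cases h7 : 7 ≤ p
      · apply hq' p _ hd
        unfold Qs
        rw [Finset.mem_filter, Finset.mem_Icc]
        exact ⟨⟨h7, Nat.le_floor hcon.le⟩, hp, hcon⟩
      · have h6 : p < 7 := by omega
        interval_cases p
        · exact absurd hp (by norm_num)
        · exact absurd hp (by norm_num)
        · exact h2 hd
        · exact h3 hd
        · exact absurd hp (by norm_num)
        · exact h5 hd
        · exact absurd hp (by norm_num)
    have hdF : ∀ p : ℕ, p ∣ a * b + 1 → (p : ℤ) ∣ Fb a b := by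
      intro p hd
      have : (p : ℤ) ∣ ((a * b + 1 : ℕ) : ℤ) := by exact_mod_cast hd
      unfold Fb
      push_cast at this
      exact Dvd.dvd.mul_right this _
    have hPTb := hPT u a b hu (by omega) hBb (by
      intro p hp hd
      by_contra hcon
      push Not at hcon
      have hb1 := hbig p hp (hdF p hd)
      obtain ⟨i, hi1, hi2, hi3, hi4⟩ := box_FIN (a := a) (p := p) (j0 := j0) (ω := ω) (1123 * u)
        hj0u hb1 hcon
      apply hi'
      refine ⟨p, ?_, hd⟩
      simp only [Pr, Finset.mem_biUnion, Finset.mem_Ico]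
      refine ⟨i, ⟨hi1, hi2⟩, ?_⟩
      unfold bx
      rw [Finset.mem_filter, Finset.mem_range, Nat.lt_ceil]
      refine ⟨hi4, hp, hi3, ?_⟩
      intro hpa
      have h6 : p ∣ 1 := (Nat.dvd_add_right (Dvd.dvd.mul_right hpa b)).1 hd
      exact hp.one_lt.ne' (Nat.dvd_one.1 h6)) (by
      intro p hp hd
      have hd' : p ∣ a * b + 1 := (dvd_pow_self p (by norm_num)).trans hd
      exact hsq p hp (hbig p hp (hdF p hd')) hd) hs
    refine ⟨hBb'.1, hBb'.2, hPTb, ?_⟩
    have hb1 : 1 ≤ b := by omega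
    have hba : b ≤ a / 2 := hBb'.2
    have hba' : b ≤ a := by omega
    have hQ : (((a + 2 - b) ^ 2 + (a + 1) * (b - 1) ^ 2 : ℕ) : ℤ) = QQ a b := by
      unfold QQ
      push_cast [Nat.cast_sub (show b ≤ a + 2 by omega), Nat.cast_sub hb1]
      ring
    apply omega_le_FIN (a := a) (by omega) hθp
    · have : 0 < (a + 2 - b) ^ 2 := by
        apply pow_pos
        omega
      omega
    · have e1 : (a + 2 - b) ^ 2 ≤ (2 * a) ^ 2 := Nat.pow_le_pow_left (by omega) 2
      have e2 : (b - 1) ^ 2 ≤ a ^ 2 := Nat.pow_le_pow_left (by omega) 2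
      have e3 : (a + 2 - b) ^ 2 + (a + 1) * (b - 1) ^ 2 ≤ a ^ 4 := by
        calc (a + 2 - b) ^ 2 + (a + 1) * (b - 1) ^ 2 ≤ (2 * a) ^ 2 + (a + 1) * a ^ 2 := by
              exact Nat.add_le_add e1 (Nat.mul_le_mul_left _ e2)
          _ = (a + 5) * a ^ 2 := by ring
          _ ≤ (a * a) * a ^ 2 := by
              apply Nat.mul_le_mul_right
              nlinarith
          _ = a ^ 4 := by ring
      have e4 : (((a + 2 - b) ^ 2 + (a + 1) * (b - 1) ^ 2 : ℕ) : ℝ) ≤ ((a ^ 4 : ℕ) : ℝ) := by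
        exact_mod_cast e3
      calc (((a + 2 - b) ^ 2 + (a + 1) * (b - 1) ^ 2 : ℕ) : ℝ) ≤ ((a ^ 4 : ℕ) : ℝ) := e4
        _ = (a : ℝ) ^ (4 : ℝ) := by push_cast; norm_num
    · intro p hp hd
      apply hbig p hp
      have : (p : ℤ) ∣ (((a + 2 - b) ^ 2 + (a + 1) * (b - 1) ^ 2 : ℕ) : ℤ) := by
        exact_mod_cast hd
      rw [hQ] at this
      unfold Fb
      exact Dvd.dvd.mul_left this _
  have hcard : S.card ≤ (ys ⌈(4 : ℝ) / θ⌉₊ (a + 1)).card := by
    apply Finset.card_le_card_of_injOn (fun b => b - 1)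
    · intro b hb
      obtain ⟨g1, g2, g3, g4⟩ := hmem b hb
      simp only [ys, Finset.coe_filter, Set.mem_ofPred_eq, Finset.mem_Ioo]
      have hb1 : 1 ≤ b := by omega
      have e1 : a + 1 - (b - 1) = a + 2 - b := by omega
      have e2 : a + 2 - b + (a + 1) * (b - 1) = a * b + 1 := by
        obtain ⟨b', rfl⟩ : ∃ b', b = b' + 1 := ⟨b - 1, by omega⟩
        have : b' + 1 ≤ a + 2 := by omega
        zify [this]
        simp
        ring
      rw [e1, e2]
      exact ⟨⟨by omega, by omega⟩, g3, g4⟩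
    · intro b hb b' hb' he
      have h3 := (hmem b hb).1
      have h4 := (hmem b' hb').1
      simp only at he
      omega
  have hfinal : ((a + 1 : ℕ) : ℝ) / Real.log ((a + 1 : ℕ) : ℝ) ^ 4 ≤ c * a / Real.log a ^ 3 := by
    have hl1 : Real.log a ≤ Real.log ((a + 1 : ℕ) : ℝ) := by
      apply Real.log_le_log (by linarith)
      push_cast
      linarith
    have hl2 : Real.log a ^ 4 ≤ Real.log ((a + 1 : ℕ) : ℝ) ^ 4 := by
      apply pow_le_pow_left₀ hlogp.le hl1
    have hl3 : (0 : ℝ) < Real.log a ^ 4 := by positivity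
    calc ((a + 1 : ℕ) : ℝ) / Real.log ((a + 1 : ℕ) : ℝ) ^ 4
        ≤ (2 * a) / Real.log a ^ 4 := by
          apply div_le_div₀ (by linarith) _ hl3 hl2
          push_cast
          linarith
      _ = (2 / Real.log a) * (a / Real.log a ^ 3) := by
          field_simp
      _ ≤ c * (a / Real.log a ^ 3) := by
          apply mul_le_mul_of_nonneg_right _ (by positivity)
          rw [div_le_iff₀ hlogp]
          rw [div_le_iff₀ hc] at hlog
          linarith
      _ = c * a / Real.log a ^ 3 := by ring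
  have hcard' : (S.card : ℝ) ≤ ((ys ⌈(4 : ℝ) / θ⌉₊ (a + 1)).card : ℝ) := by exact_mod_cast hcard
  exact hfinal.trans (hS.trans (hcount.trans hcard'))

end Pool.Agent.Helper49.TW
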