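import Pool.Agent.Helper9.TW.St

set_option autoImplicit false

noncomputable section

namespace Pool.Agent.Helper49.TW

open Finset Filter Topology
open Pool.Agent.Helper9.TW

theorem gm_nonneg_FS (j : ℕ) (hj : 1 ≤ j) : 0 ≤ gm j := by
  unfold gm
  apply Real.log_nonneg
  have : (0 : ℝ) < j := by exact_mod_cast hj
  rw [le_div_iff₀ this]
  linarith

theorem hFS (hA : StAX) (h4 : StD4) (h5 : StD5) (h6 : StD6) : StFS := by
  intro θ hθ hθ1
  obtain ⟨u₀, hu₀⟩ := h6
  set S : ℕ := ⌈(3 / 2 : ℝ) / θ⌉₊ with hS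
  have hS1 : (3 / 2 : ℝ) / θ ≤ S := Nat.le_ceil _
  have hS2 : (S : ℝ) < (3 / 2 : ℝ) / θ + 1 := Nat.ceil_lt_add_one (by positivity)
  obtain ⟨g1, g2, g3⟩ := h5 S
  obtain ⟨-, g4⟩ := h4 S (12293 / 10000) (by norm_num) g1
  obtain ⟨js1, k1⟩ := g4 (1 / 1000) (by norm_num)
  obtain ⟨js2, k2⟩ := g2 (1 / 1000) (by norm_num)
  obtain ⟨js3, k3⟩ := g3 (1 / 1000) (by norm_num)
  set js : ℕ := js1 + js2 + js3 + 2 with hjs
  set u : ℕ := u₀ + ⌈(js : ℝ) / θ⌉₊ with hu
  have hu1 : (js : ℝ) / θ ≤ u := by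
    have := Nat.le_ceil ((js : ℝ) / θ)
    have h : ((⌈(js : ℝ) / θ⌉₊ : ℕ) : ℝ) ≤ u := by
      exact_mod_cast Nat.le_add_left _ _
    linarith
  have hjsu : (js : ℝ) ≤ u * θ := by
    rw [div_le_iff₀ hθ] at hu1
    exact hu1
  have hjs2 : (2 : ℝ) ≤ js := by
    exact_mod_cast (by omega : 2 ≤ js)
  have hupos : (0 : ℝ) < u := by
    by_contra hcon
    push Not at hcon
    have : (u : ℝ) * θ ≤ 0 := mul_nonpos_of_nonpos_of_nonneg hcon hθ.le
    linarith
  have hu200 : (200 : ℝ) ≤ u := by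
    by_contra hcon
    push Not at hcon
    have : (u : ℝ) * θ < 200 * (1 / 100) := by
      apply mul_lt_mul_of_lt_of_le_of_nonneg_of_pos hcon hθ1 hupos.le (by norm_num)
    linarith
  have hu1' : 1 ≤ u := by
    have : (1 : ℝ) ≤ u := by linarith
    exact_mod_cast this
  set j0 : ℕ := ⌊4000 * (u : ℝ) * θ⌋₊ with hj0
  have hj0le : (j0 : ℝ) ≤ 4000 * u * θ := Nat.floor_le (by positivity)
  have hj0lt : 4000 * (u : ℝ) * θ < j0 + 1 := Nat.lt_floor_add_one _
  have hj0js : js ≤ j0 := by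
    have h : (js : ℝ) ≤ 4000 * u * θ := by
      have : (0 : ℝ) ≤ u * θ := by positivity
      nlinarith
    exact Nat.le_floor h
  have hj0u : (j0 : ℝ) ≤ 40 * u := by nlinarith
  have hj0u' : j0 ≤ 40 * u := by exact_mod_cast hj0u
  have hω : (0 : ℝ) < 1 / (4000 * u) := by positivity
  have hNm : ((S * j0 : ℕ) : ℝ) * (1 / (4000 * u)) ≤ 2 := by
    push_cast
    have h1 : (S : ℝ) * j0 ≤ ((3 / 2 : ℝ) / θ + 1) * (4000 * u * θ) :=
      mul_le_mul hS2.le hj0le (Nat.cast_nonneg _) (by positivity)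
    have h2 : ((3 / 2 : ℝ) / θ + 1) * (4000 * u * θ) = (3 / 2 + θ) * (4000 * u) := by
      field_simp
    rw [mul_one_div, div_le_iff₀ (by positivity)]
    rw [h2] at h1
    nlinarith
  have hNS : 4492 * u ≤ S * j0 := by
    have h1 : ((3 / 2 : ℝ) / θ) * (4000 * u * θ - 1) ≤ (S : ℝ) * j0 := by
      apply mul_le_mul hS1 (by linarith) _ (Nat.cast_nonneg _)
      have : (1 : ℝ) ≤ 4000 * u * θ := by nlinarith
      linarith
    have h2 : ((3 / 2 : ℝ) / θ) * (4000 * u * θ - 1) = 6000 * u - (3 / 2) / θ := by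
      field_simp
      ring
    have h3 : (3 / 2 : ℝ) / θ ≤ u := by
      rw [div_le_iff₀ hθ]
      linarith
    have h4' : ((4492 * u : ℕ) : ℝ) ≤ ((S * j0 : ℕ) : ℝ) := by
      push_cast
      linarith
    exact_mod_cast h4'
  have hax := hA (1 / (4000 * u)) j0 (S * j0) hω (by omega) hNm
  have hj0z : j0 ≤ 1123 * u := by omega
  obtain ⟨μm, m1, m2⟩ := k2 j0 (by omega) _ _ hax (1123 * u) (4492 * u) hj0z hNS (by
    push_cast; linarith)
  obtain ⟨μp, p1, p2⟩ := k3 j0 (by omega) _ _ hax (1123 * u) (4492 * u) hj0z hNS (by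
    push_cast; linarith)
  have hμ : ∀ j : ℕ, ∃ ν : ℝ, j ∈ Ico (1123 * u) (3996 * u) →
      UpP (1 / (4000 * u)) j0 (4492 * u - (j + 1)) (1123 * u) ν ∧
        ν * ((4492 * u - (j + 1) : ℕ) : ℝ) ≤ 3 * j0 * (12293 / 10000 + 1 / 1000) := by
    intro j
    by_cases hj : j ∈ Ico (1123 * u) (3996 * u)
    · rw [Finset.mem_Ico] at hj
      obtain ⟨ν, n1, n2⟩ := k1 j0 (by omega) _ _ hax (1123 * u) (4492 * u - (j + 1)) hj0z
        (by omega) (by omega) (by omega)
      exact ⟨ν, fun _ => ⟨n1, n2⟩⟩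
    · exact ⟨0, fun h => absurd h hj⟩
  choose μ hμ' using hμ
  refine ⟨u, j0, hu1', by omega, hj0z, ?_, μm, μp, μ, m1, p1, fun j hj => (hμ' j hj).1, ?_⟩
  · rw [mul_one_div, div_le_iff₀ (by positivity)]
    linarith
  set V : ℝ := (j0 : ℝ) / (1123 * u) with hV
  have hVpos : 0 < V := by
    have : (0 : ℝ) < j0 := by exact_mod_cast (by omega : 0 < j0)
    positivity
  have e1 : V * (9691 / 10000 - 1 / 1000) ≤ μm := by
    have := m2
    push_cast at this
    exact this
  have e2 : μp ≤ V * (10304 / 10000 + 1 / 1000) := by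
    have := p2
    push_cast at this
    exact this
  have e3 : ∑ j ∈ Ico (1123 * u) (3996 * u), gm j * (1 - (j : ℝ) / (3996 * u)) * μ j ≤
      V * (12293 / 10000 + 1 / 1000) * (7765 / 10000) := by
    have h7 := hu₀ u (Nat.le_add_right _ _)
    calc ∑ j ∈ Ico (1123 * u) (3996 * u), gm j * (1 - (j : ℝ) / (3996 * u)) * μ j
        ≤ ∑ j ∈ Ico (1123 * u) (3996 * u), (V * (12293 / 10000 + 1 / 1000)) *
          (gm j * (1 - (j : ℝ) / (3996 * u)) * (3 * (1123 * u) / (4492 * u - ((j : ℝ) + 1)))) := by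
          apply Finset.sum_le_sum
          intro j hj
          have hb := (hμ' j hj).2
          rw [Finset.mem_Ico] at hj
          have hcast : ((4492 * u - (j + 1) : ℕ) : ℝ) = 4492 * u - ((j : ℝ) + 1) := by
            rw [Nat.cast_sub (by omega)]
            push_cast
            ring
          rw [hcast] at hb
          have hjr : (j : ℝ) + 1 ≤ 3996 * u := by exact_mod_cast hj.2
          have hD : (0 : ℝ) < 4492 * u - ((j : ℝ) + 1) := by linarith
          have hg := gm_nonneg_FS j (by omega)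
          have hw : 0 ≤ 1 - (j : ℝ) / (3996 * u) := by
            rw [sub_nonneg, div_le_one (by positivity)]
            linarith
          have hν : μ j ≤ 3 * j0 * (12293 / 10000 + 1 / 1000) / (4492 * u - ((j : ℝ) + 1)) := by
            rw [le_div_iff₀ hD]
            exact hb
          have hrw : (V * (12293 / 10000 + 1 / 1000)) *
              (gm j * (1 - (j : ℝ) / (3996 * u)) * (3 * (1123 * u) / (4492 * u - ((j : ℝ) + 1)))) =
              gm j * (1 - (j : ℝ) / (3996 * u)) *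
                (3 * j0 * (12293 / 10000 + 1 / 1000) / (4492 * u - ((j : ℝ) + 1))) := by
            rw [hV]
            field_simp
          rw [hrw]
          exact mul_le_mul_of_nonneg_left hν (mul_nonneg hg hw)
      _ = V * (12293 / 10000 + 1 / 1000) *
          ∑ j ∈ Ico (1123 * u) (3996 * u),
            (gm j * (1 - (j : ℝ) / (3996 * u)) * (3 * (1123 * u) / (4492 * u - ((j : ℝ) + 1)))) := by
          rw [Finset.mul_sum]
      _ ≤ V * (12293 / 10000 + 1 / 1000) * (7765 / 10000) :=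
          mul_le_mul_of_nonneg_left h7 (by positivity)
  nlinarith

end Pool.Agent.Helper49.TW
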