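import Pool.Agent.Helper9.TW.St

set_option autoImplicit false

noncomputable section

namespace Pool.Agent.Helper49.TW

open Finset Filter Topology
open Pool.Agent.Helper9.TW

theorem bx_prime_INQ {a i p : ℕ} {ω : ℝ} (hp : p ∈ bx a ω i) : p.Prime := by
  unfold bx at hp
  rw [Finset.mem_filter] at hp
  exact hp.2.1

theorem bx_disj_INQ {a i i' p : ℕ} {ω : ℝ} (ha : 1 ≤ a) (hω : 0 < ω) (hi : i < i')
    (hp : p ∈ bx a ω i) (hp' : p ∈ bx a ω i') : False := by
  have ha' : (1 : ℝ) ≤ a := by exact_mod_cast ha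
  unfold bx at hp hp'
  rw [Finset.mem_filter, Finset.mem_range, Nat.lt_ceil] at hp hp'
  have h1 := hp.1
  have h2 := hp'.2.2.1
  have h3 : (a : ℝ) ^ (((i : ℝ) + 1) * ω) ≤ (a : ℝ) ^ ((i' : ℝ) * ω) := by
    apply Real.rpow_le_rpow_of_exponent_le ha'
    have : (i : ℝ) + 1 ≤ i' := by exact_mod_cast hi
    exact mul_le_mul_of_nonneg_right this hω.le
  linarith

theorem sum_div_INQ {n p : ℕ} (hp : p.Prime) (hpn : p ∣ n) (l : ℕ → ℝ)
    (h : ∀ q, l q ≠ 0 → ¬ p ∣ q) :
    ∑ q ∈ n.divisors.filter (fun q => p ∣ q), l (q / p) = ∑ q ∈ n.divisors, l q := by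
  symm
  refine Finset.sum_bij_ne_zero (fun q _ _ => p * q) ?_ ?_ ?_ ?_
  · intro q hq hne
    rw [Finset.mem_filter, Nat.mem_divisors]
    rw [Nat.mem_divisors] at hq
    refine ⟨⟨?_, hq.2⟩, Dvd.intro q rfl⟩
    exact Nat.Coprime.mul_dvd_of_dvd_of_dvd ((Nat.Prime.coprime_iff_not_dvd hp).2 (h q hne))
      hpn hq.1
  · intro q₁ _ _ q₂ _ _ he
    exact Nat.eq_of_mul_eq_mul_left hp.pos he
  · intro q hq hne
    rw [Finset.mem_filter, Nat.mem_divisors] at hq
    obtain ⟨⟨hq1, hq2⟩, k, rfl⟩ := hq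
    rw [Nat.mul_div_cancel_left k hp.pos] at hne
    refine ⟨k, ?_, hne, rfl⟩
    rw [Nat.mem_divisors]
    exact ⟨(Dvd.intro_left p rfl).trans hq1, hq2⟩
  · intro q _ _
    rw [Nat.mul_div_cancel_left q hp.pos]

theorem hINQ (hX : StWFX) : StINQ := by
  classical
  intro a j0 j j' ω x T B l n ha hω hx hjj hn hW
  have ha1 : 1 ≤ a := by omega
  have hsup := hX a j0 j ω x T B l ha1 hx hW
  have key : ∀ p ∈ bx a ω j', ∀ q, l q ≠ 0 → ¬ p ∣ q := by
    intro p hp q hq hd
    have h1 := (hsup q hq).1.2 p (bx_prime_INQ hp) hd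
    simp only [Pr, Finset.mem_biUnion, Finset.mem_Ico] at h1
    obtain ⟨i, ⟨-, hi⟩, h3⟩ := h1
    exact bx_disj_INQ ha1 hω (lt_of_lt_of_le hi hjj) h3 hp
  constructor
  · unfold bm
    calc ∑ q ∈ n.divisors, ∑ p ∈ (bx a ω j').filter (fun p => p ∣ q), l (q / p)
        = ∑ q ∈ n.divisors, ∑ p ∈ bx a ω j', (if p ∣ q then l (q / p) else 0) := by
          apply Finset.sum_congr rfl
          intro q _
          rw [Finset.sum_filter]
      _ = ∑ p ∈ bx a ω j', ∑ q ∈ n.divisors, (if p ∣ q then l (q / p) else 0) :=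
          Finset.sum_comm
      _ = ∑ p ∈ bx a ω j', (if p ∣ n then ∑ q ∈ n.divisors, l q else 0) := by
          apply Finset.sum_congr rfl
          intro p hp
          rw [← Finset.sum_filter]
          split_ifs with hpn
          · exact sum_div_INQ (bx_prime_INQ hp) hpn l (key p hp)
          · rw [Finset.filter_false_of_mem, Finset.sum_empty]
            intro q hq hd
            exact hpn (hd.trans (Nat.dvd_of_mem_divisors hq))
      _ = _ := by
          rw [← Finset.sum_filter, Finset.sum_const, nsmul_eq_mul]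
          rfl
  · set P : Finset ℕ := (bx a ω j').filter (fun p => p ∣ n) with hP
    have hPp : ∀ p ∈ P, p.Prime := by
      intro p hp
      exact bx_prime_INQ (Finset.mem_filter.1 hp).1
    have hset : n.divisors.filter (fun q => ∃ p ∈ bx a ω j', ∃ p' ∈ bx a ω j', p < p' ∧ q = p * p') =
        (P.powersetCard 2).image (fun s => ∏ p ∈ s, p) := by
      ext q
      rw [Finset.mem_filter, Nat.mem_divisors, Finset.mem_image]
      constructor
      · rintro ⟨⟨h1, h2⟩, p, hp, p', hp', hlt, rfl⟩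
        refine ⟨{p, p'}, ?_, ?_⟩
        · rw [Finset.mem_powersetCard]
          refine ⟨?_, Finset.card_pair hlt.ne⟩
          intro r hr
          rw [Finset.mem_insert, Finset.mem_singleton] at hr
          rw [hP, Finset.mem_filter]
          rcases hr with rfl | rfl
          · exact ⟨hp, (Dvd.intro _ rfl).trans h1⟩
          · exact ⟨hp', (Dvd.intro_left _ rfl).trans h1⟩
        · rw [Finset.prod_pair hlt.ne]
      · rintro ⟨s, hs, rfl⟩
        rw [Finset.mem_powersetCard] at hs
        obtain ⟨hsP, hs2⟩ := hs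
        obtain ⟨u, v, huv, rfl⟩ := Finset.card_eq_two.1 hs2
        have hu : u ∈ P := hsP (Finset.mem_insert_self _ _)
        have hv : v ∈ P := hsP (Finset.mem_insert_of_mem (Finset.mem_singleton_self _))
        rw [Finset.prod_pair huv]
        rw [hP, Finset.mem_filter] at hu hv
        have hup := bx_prime_INQ hu.1
        have hvp := bx_prime_INQ hv.1
        refine ⟨⟨?_, by omega⟩, ?_⟩
        · exact Nat.Coprime.mul_dvd_of_dvd_of_dvd ((Nat.coprime_primes hup hvp).2 huv) hu.2 hv.2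
        · rcases lt_or_gt_of_ne huv with h | h
          · exact ⟨u, hu.1, v, hv.1, h, rfl⟩
          · exact ⟨v, hv.1, u, hu.1, h, Nat.mul_comm u v⟩
    have hinj : Set.InjOn (fun s : Finset ℕ => ∏ p ∈ s, p) (P.powersetCard 2 : Set (Finset ℕ)) := by
      intro s hs t ht he
      rw [Finset.mem_coe, Finset.mem_powersetCard] at hs ht
      have h1 : (∏ p ∈ s, p).primeFactors = s := Nat.primeFactors_prod (fun p hp => hPp p (hs.1 hp))
      have h2 : (∏ p ∈ t, p).primeFactors = t := Nat.primeFactors_prod (fun p hp => hPp p (ht.1 hp))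
      rw [← h1, ← h2]
      simp only at he
      rw [he]
    unfold pr2
    rw [← Finset.sum_filter, Finset.sum_const, nsmul_eq_mul, mul_one]
    have hc : ((n.divisors.filter (fun q => ∃ p ∈ bx a ω j', ∃ p' ∈ bx a ω j', p < p' ∧ q = p * p')).card : ℝ)
        = ((P.card.choose 2 : ℕ) : ℝ) := by
      rw [hset, Finset.card_image_of_injOn hinj, Finset.card_powersetCard]
    have hej : ej a ω j' n = P.card := rfl
    rw [hej, ← Nat.cast_choose_two, ← hc]

end Pool.Agent.Helper49.TW
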