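import Pool.Agent.Helper49.TW.M_US

set_option autoImplicit false

noncomputable section

namespace Pool.Agent.Helper49.TW

open Finset Filter Topology
open Pool.Agent.Helper9.TW

theorem hLS (hS : StWFS) (hB : StWFB) (hMB : StMSB) (hM : StMER) (hI : StINQ) : StLS := by
  intro ω j0 N j μ μ' hω hj0 hj hN hNω hL hU
  obtain ⟨T₁, B₁, Lam₁, hW1, hD1, hT1⟩ := hL
  obtain ⟨T₂, B₂, Lam₂, hW2, hD2, hT2⟩ := hU
  have hcast : ((N - (j + 1) : ℕ) : ℝ) = (N : ℝ) - (j + 1) := by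
    rw [Nat.cast_sub (by omega)]; push_cast; ring
  have hN' : (2 : ℝ) * (j + 1) ≤ N := by exact_mod_cast hN
  have hx2 : 0 ≤ ((N - (j + 1) : ℕ) : ℝ) * ω := by positivity
  have hle : ((j : ℝ) + 1) * ω ≤ ((N - (j + 1) : ℕ) : ℝ) * ω := by
    rw [hcast]
    have : (j : ℝ) + 1 ≤ N - (j + 1) := by linarith
    exact mul_le_mul_of_nonneg_right this hω.le
  have hsum : ((N - (j + 1) : ℕ) : ℝ) * ω + ((j : ℝ) + 1) * ω = (N : ℝ) * ω := by
    rw [hcast]; ring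
  refine ⟨T₁ + T₂, max B₁ B₂, fun a q => Lam₁ a q + - bm a ω j (Lam₂ a) q, ?_, ?_, ?_⟩
  · filter_upwards [hW1, hW2, eventually_ge_atTop 1] with a h1 h2 ha
    obtain ⟨s1, s2, -, s4, -, -⟩ := hS a j0 (j + 1) ω ((N : ℝ) * ω) ha (by omega)
    have g1 : WF a ω j0 (j + 1) ((N : ℝ) * ω) T₁ B₁ (Lam₁ a) :=
      (hS a j0 j ω ((N : ℝ) * ω) ha hj).2.2.2.1 T₁ (j + 1) B₁ (Lam₁ a) (by omega) h1
    have g2 := hB a j0 j ω _ T₂ B₂ (Lam₂ a) ha hω hj hle (WF_nonneg ha hx2 h2) h2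
    rw [hsum] at g2
    exact s1 _ _ _ _ _ _ g1 (s2 _ _ _ g2)
  · filter_upwards [hW2, hD1, hD2, eventually_ge_atTop 2] with a h2 d1 d2 ha
    intro n hn
    obtain ⟨i1, -⟩ := hI a j0 j j ω _ T₂ B₂ (Lam₂ a) n ha hω hx2 le_rfl hn h2
    rw [Finset.sum_add_distrib, Finset.sum_neg_distrib, i1]
    have e1 := d1 n hn
    have e2 := d2 n hn
    have hI0 := ind_nonneg a ω j0 j n
    have hI1 := ind_le a ω j0 j n
    rw [ind_succ a ω j0 j n hj]
    set e : ℕ := ej a ω j n with he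
    set I : ℝ := ind a ω j0 j n with hId
    rcases Nat.eq_zero_or_pos e with h0 | h0
    · rw [if_pos h0, h0]
      push_cast
      linarith
    · rw [if_neg (by omega)]
      have he1 : (1 : ℝ) ≤ e := by exact_mod_cast h0
      nlinarith [mul_le_mul_of_nonneg_left e2 (by linarith : (0 : ℝ) ≤ e),
        mul_nonneg (by linarith : (0 : ℝ) ≤ (e : ℝ) - 1) hI0]
  · have hev : ∀ᶠ a : ℕ in atTop, ms a (Lam₁ a) - (∑ p ∈ bx a ω j, (1 : ℝ) / p) * ms a (Lam₂ a) =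
        ms a (fun q => Lam₁ a q + - bm a ω j (Lam₂ a) q) := by
      filter_upwards [hW2, eventually_ge_atTop 1] with a h2 ha
      have m1 := hMB a j0 j j ω _ T₂ B₂ (Lam₂ a) ha hω hx2 (by rw [hsum]; exact hNω) h2
      rw [ms_add a (Lam₁ a) (fun q => - bm a ω j (Lam₂ a) q), ms_neg a (bm a ω j (Lam₂ a)), m1]
      ring
    refine Tendsto.congr' hev ?_
    exact hT1.sub ((hM ω j hω (by omega)).mul hT2)

end Pool.Agent.Helper49.TW
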