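import Pool.Agent.Helper9.TW.St

set_option autoImplicit false

noncomputable section

namespace Pool.Agent.Helper49.TW

open Finset Filter Topology
open Pool.Agent.Helper9.TW

theorem sum_mul_MSB {A p : ℕ} (hp : 0 < p) (l : ℕ → ℝ) (h : ∀ q, l q ≠ 0 → p * q ≤ A) :
    ∑ q ∈ (range (A + 1)).filter (fun q => p ∣ q), l (q / p) / q =
      (1 / (p : ℝ)) * ∑ q ∈ range (A + 1), l q / q := by
  rw [Finset.mul_sum]
  symm
  refine Finset.sum_bij_ne_zero (fun q _ _ => p * q) ?_ ?_ ?_ ?_
  · intro q hq hne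
    have hl : l q ≠ 0 := by
      intro h0
      apply hne
      rw [h0]
      simp
    rw [Finset.mem_filter, Finset.mem_range]
    exact ⟨by have := h q hl; omega, Dvd.intro q rfl⟩
  · intro q₁ _ _ q₂ _ _ he
    exact Nat.eq_of_mul_eq_mul_left hp he
  · intro q hq hne
    rw [Finset.mem_filter, Finset.mem_range] at hq
    obtain ⟨hq1, k, rfl⟩ := hq
    rw [Nat.mul_div_cancel_left k hp] at hne
    refine ⟨k, ?_, ?_, rfl⟩
    · rw [Finset.mem_range]
      have : k ≤ p * k := Nat.le_mul_of_pos_left k hp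
      omega
    · intro h0
      apply hne
      have hpr : (p : ℝ) ≠ 0 := by exact_mod_cast hp.ne'
      rcases mul_eq_zero.1 h0 with h1 | h1
      · simp [hpr] at h1
      · rcases div_eq_zero_iff.1 h1 with h2 | h2
        · rw [h2]; simp
        · rw [Nat.cast_mul, h2]; simp
  · intro q _ _
    rw [Nat.mul_div_cancel_left q hp, Nat.cast_mul, one_div, div_eq_mul_inv, div_eq_mul_inv, mul_inv]
    ring

theorem hMSB (hX : StWFX) : StMSB := by
  intro a j0 j j' ω x T B l ha hω hx hle hW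
  have hsup := hX a j0 j ω x T B l ha hx hW
  have ha' : (1 : ℝ) ≤ a := by exact_mod_cast ha
  have ha0 : (0 : ℝ) < a := by linarith
  have key : ∀ p ∈ bx a ω j', ∀ q, l q ≠ 0 → p * q ≤ a ^ 2 := by
    intro p hp q hq
    have h1 := (hsup q hq).2
    unfold bx at hp
    rw [Finset.mem_filter, Finset.mem_range, Nat.lt_ceil] at hp
    have h2 := hp.1.le
    have h3 : (p : ℝ) * q ≤ (a : ℝ) ^ (((j' : ℝ) + 1) * ω) * (a : ℝ) ^ x :=
      mul_le_mul h2 h1 (Nat.cast_nonneg _) (by positivity)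
    rw [← Real.rpow_add ha0] at h3
    have h4 : (a : ℝ) ^ (((j' : ℝ) + 1) * ω + x) ≤ (a : ℝ) ^ (2 : ℝ) :=
      Real.rpow_le_rpow_of_exponent_le ha' (by linarith)
    have h5 : ((p * q : ℕ) : ℝ) ≤ ((a ^ 2 : ℕ) : ℝ) := by
      push_cast
      calc (p : ℝ) * q ≤ _ := h3
        _ ≤ _ := h4
        _ = _ := by norm_num
    exact_mod_cast h5
  unfold ms bm
  rw [Finset.sum_mul]
  have hpos : ∀ p ∈ bx a ω j', 0 < p := by
    intro p hp
    unfold bx at hp
    rw [Finset.mem_filter] at hp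
    exact hp.2.1.pos
  calc ∑ q ∈ range (a ^ 2 + 1), (∑ p ∈ (bx a ω j').filter (fun p => p ∣ q), l (q / p)) / (q : ℝ)
      = ∑ q ∈ range (a ^ 2 + 1), ∑ p ∈ bx a ω j', (if p ∣ q then l (q / p) / (q : ℝ) else 0) := by
        apply Finset.sum_congr rfl
        intro q _
        rw [Finset.sum_filter, Finset.sum_div]
        apply Finset.sum_congr rfl
        intro p _
        split_ifs
        · rfl
        · simp
    _ = ∑ p ∈ bx a ω j', ∑ q ∈ range (a ^ 2 + 1), (if p ∣ q then l (q / p) / (q : ℝ) else 0) :=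
        Finset.sum_comm
    _ = _ := by
        apply Finset.sum_congr rfl
        intro p hp
        rw [← Finset.sum_filter]
        exact sum_mul_MSB (hpos p hp) l (key p hp)

end Pool.Agent.Helper49.TW
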