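import Pool.Agent.Helper9.TW.St

set_option autoImplicit false

noncomputable section

namespace Pool.Agent.Helper49.TW

open Finset Filter Topology
open Pool.Agent.Helper9.TW

theorem ind_self_TRV (a : ℕ) (ω : ℝ) (j0 n : ℕ) : ind a ω j0 j0 n = 1 := by
  unfold ind
  rw [if_neg]
  rintro ⟨p, hp, -⟩
  simp [Pr] at hp

theorem ind_anti_TRV (a : ℕ) (ω : ℝ) (j0 j n : ℕ) :
    ind a ω j0 (j + 1) n ≤ ind a ω j0 j n := by
  unfold ind
  by_cases h1 : ∃ p ∈ Pr a ω j0 j, p ∣ n
  · rw [if_pos h1, if_pos]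
    obtain ⟨p, hp, hd⟩ := h1
    refine ⟨p, ?_, hd⟩
    simp only [Pr, Finset.mem_biUnion, Finset.mem_Ico] at hp ⊢
    obtain ⟨i, ⟨h1, h2⟩, h3⟩ := hp
    exact ⟨i, ⟨h1, by omega⟩, h3⟩
  · rw [if_neg h1]
    split_ifs <;> norm_num

theorem ms_delta_TRV {a : ℕ} (ha : 1 ≤ a) : ms a (fun q => if q = 1 then (1 : ℝ) else 0) = 1 := by
  unfold ms
  rw [Finset.sum_eq_single 1]
  · simp
  · intro b _ hb
    simp [hb]
  · intro h
    exfalso
    apply h
    rw [Finset.mem_range]
    have : 0 < a ^ 2 := by positivity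
    omega

theorem div_delta_TRV {n : ℕ} (hn : 1 ≤ n) :
    ∑ q ∈ n.divisors, (if q = 1 then (1 : ℝ) else 0) = 1 := by
  rw [Finset.sum_ite_eq']
  simp
  omega

theorem hTRV (hS : StWFS) : StTRV := by
  intro ω j0 N j μ hω hj
  have hx : (0 : ℝ) ≤ (N : ℝ) * ω := by positivity
  refine ⟨⟨1, 1, fun _ q => if q = 1 then 1 else 0, ?_, ?_, ?_⟩,
    ⟨1, 1, fun _ q => if q = 1 then 1 else 0, ?_, ?_, ?_⟩, ?_,
    ⟨0, 0, fun _ _ => 0, ?_, ?_, ?_⟩⟩
  · filter_upwards [eventually_ge_atTop 1] with a ha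
    exact (hS a j0 j0 ω _ ha le_rfl).2.2.2.2.2 hx
  · filter_upwards with a
    intro n hn
    rw [ind_self_TRV, div_delta_TRV hn]
  · apply tendsto_const_nhds.congr'
    filter_upwards [eventually_ge_atTop 1] with a ha
    rw [ms_delta_TRV ha]
  · filter_upwards [eventually_ge_atTop 1] with a ha
    exact (hS a j0 j0 ω _ ha le_rfl).2.2.2.2.2 hx
  · filter_upwards with a
    intro n hn
    rw [ind_self_TRV, div_delta_TRV hn]
  · apply tendsto_const_nhds.congr'
    filter_upwards [eventually_ge_atTop 1] with a ha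
    rw [ms_delta_TRV ha]
  · rintro ⟨T, B, Lam, h1, h2, h3⟩
    refine ⟨T, B, Lam, ?_, ?_, h3⟩
    · filter_upwards [h1, eventually_ge_atTop 1] with a ha ha1
      exact (hS a j0 j ω _ ha1 hj).2.2.2.1 T (j + 1) B (Lam a) (by omega) ha
    · filter_upwards [h2] with a ha
      intro n hn
      exact (ind_anti_TRV a ω j0 j n).trans (ha n hn)
  · filter_upwards [eventually_ge_atTop 1] with a ha
    exact (hS a j0 j ω _ ha hj).2.2.2.2.1
  · filter_upwards with a
    intro n _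
    simp only [Finset.sum_const_zero]
    unfold ind
    split_ifs <;> norm_num
  · apply tendsto_const_nhds.congr'
    filter_upwards with a
    simp [ms]

end Pool.Agent.Helper49.TW
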