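import Pool.Agent.Helper9.TW.St

set_option autoImplicit false

noncomputable section

namespace Pool.Agent.Helper49.TW

open Finset Filter Topology
open Pool.Agent.Helper9.TW

/-- A well factorable weight has a nonnegative bound. -/
theorem WF_nonneg {a j0 j T : ℕ} {ω x B : ℝ} {l : ℕ → ℝ} (ha : 1 ≤ a) (hx : 0 ≤ x)
    (h : WF a ω j0 j x T B l) : 0 ≤ B := by
  have ha' : (1 : ℝ) ≤ a := by exact_mod_cast ha
  obtain ⟨al, be, h1, -⟩ := h ((a : ℝ) ^ x) 1 (Real.one_le_rpow ha' hx) le_rfl (by ring)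
  exact (abs_nonneg _).trans (h1 0 0).1

theorem ms_add (a : ℕ) (l₁ l₂ : ℕ → ℝ) : ms a (fun q => l₁ q + l₂ q) = ms a l₁ + ms a l₂ := by
  unfold ms
  rw [← Finset.sum_add_distrib]
  exact Finset.sum_congr rfl (fun q _ => by ring)

theorem ms_neg (a : ℕ) (l : ℕ → ℝ) : ms a (fun q => - l q) = - ms a l := by
  unfold ms
  rw [← Finset.sum_neg_distrib]
  exact Finset.sum_congr rfl (fun q _ => by ring)

theorem ind_nonneg (a : ℕ) (ω : ℝ) (j0 j n : ℕ) : 0 ≤ ind a ω j0 j n := by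
  unfold ind; split_ifs <;> norm_num

theorem ind_le (a : ℕ) (ω : ℝ) (j0 j n : ℕ) : ind a ω j0 j n ≤ 1 := by
  unfold ind; split_ifs <;> norm_num

theorem ind_succ (a : ℕ) (ω : ℝ) (j0 j n : ℕ) (hj : j0 ≤ j) :
    ind a ω j0 (j + 1) n = if ej a ω j n = 0 then ind a ω j0 j n else 0 := by
  classical
  have hPr : Pr a ω j0 (j + 1) = Pr a ω j0 j ∪ bx a ω j := by
    ext p
    simp only [Pr, Finset.mem_biUnion, Finset.mem_union, Finset.mem_Ico]
    constructor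
    · rintro ⟨i, ⟨h1, h2⟩, h3⟩
      rcases Nat.lt_or_ge i j with h | h
      · exact Or.inl ⟨i, ⟨h1, h⟩, h3⟩
      · have : i = j := by omega
        subst this
        exact Or.inr h3
    · rintro (⟨i, ⟨h1, h2⟩, h3⟩ | h)
      · exact ⟨i, ⟨h1, by omega⟩, h3⟩
      · exact ⟨j, ⟨hj, by omega⟩, h⟩
  unfold ind ej
  rw [hPr]
  by_cases h1 : ∃ p ∈ Pr a ω j0 j, p ∣ n
  · rw [if_pos h1, if_pos]
    · split_ifs <;> rfl
    · obtain ⟨p, hp, hd⟩ := h1
      exact ⟨p, Finset.mem_union_left _ hp, hd⟩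
  · rw [if_neg h1]
    by_cases h2 : ∃ p ∈ bx a ω j, p ∣ n
    · obtain ⟨p, hp, hd⟩ := h2
      rw [if_pos ⟨p, Finset.mem_union_right _ hp, hd⟩, if_neg]
      rw [Finset.card_eq_zero, Finset.filter_eq_empty_iff]
      push Not
      exact ⟨p, hp, hd⟩
    · rw [if_neg, if_pos]
      · rw [Finset.card_eq_zero, Finset.filter_eq_empty_iff]
        intro p hp hd
        exact h2 ⟨p, hp, hd⟩
      · rintro ⟨p, hp, hd⟩
        rcases Finset.mem_union.1 hp with hp | hp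
        · exact h1 ⟨p, hp, hd⟩
        · exact h2 ⟨p, hp, hd⟩

theorem hUS (hS : StWFS) (hB : StWFB) (hP : StWFP) (hMB : StMSB) (hPA : StPAR) (hM : StMER)
    (hI : StINQ) : StUS := by
  intro ω j0 N j μ μ' hω hj0 hj hN hNω hU hL
  obtain ⟨T₁, B₁, Lam₁, hW1, hD1, hT1⟩ := hU
  obtain ⟨T₂, B₂, Lam₂, hW2, hD2, hT2⟩ := hL
  have hcast : ((N - (j + 1) : ℕ) : ℝ) = (N : ℝ) - (j + 1) := by
    rw [Nat.cast_sub (by omega)]; push_cast; ring
  have hN' : (3 : ℝ) * (j + 1) ≤ N := by exact_mod_cast hN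
  have hx2 : 0 ≤ ((N - (j + 1) : ℕ) : ℝ) * ω := by positivity
  have hle : ((j : ℝ) + 1) * ω ≤ ((N - (j + 1) : ℕ) : ℝ) * ω := by
    rw [hcast]
    have : (j : ℝ) + 1 ≤ N - (j + 1) := by
      have : (0 : ℝ) ≤ j := Nat.cast_nonneg j
      linarith
    exact mul_le_mul_of_nonneg_right this hω.le
  have hsum : ((N - (j + 1) : ℕ) : ℝ) * ω + ((j : ℝ) + 1) * ω = (N : ℝ) * ω := by
    rw [hcast]; ring
  have hjω : ((j : ℝ) + 1) * ω ≤ 1 := by nlinarith
  have hNpos : 0 ≤ (N : ℝ) * ω := by positivity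
  refine ⟨T₁ + T₂ + 1, max (max B₁ B₂) 1,
    fun a q => (Lam₁ a q + - bm a ω j (Lam₂ a) q) + pr2 a ω j q, ?_, ?_, ?_⟩
  · filter_upwards [hW1, hW2, eventually_ge_atTop 1] with a h1 h2 ha
    obtain ⟨s1, s2, -, s4, -, -⟩ := hS a j0 (j + 1) ω ((N : ℝ) * ω) ha (by omega)
    have g1 : WF a ω j0 (j + 1) ((N : ℝ) * ω) T₁ B₁ (Lam₁ a) :=
      (hS a j0 j ω ((N : ℝ) * ω) ha hj).2.2.2.1 T₁ (j + 1) B₁ (Lam₁ a) (by omega) h1
    have g2 := hB a j0 j ω _ T₂ B₂ (Lam₂ a) ha hω hj hle (WF_nonneg ha hx2 h2) h2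
    rw [hsum] at g2
    have g3 := hP a j0 j ω ((N : ℝ) * ω) ha hω hj (by
      have : 3 * (((j : ℝ) + 1) * ω) = (3 * ((j : ℝ) + 1)) * ω := by ring
      rw [this]
      exact mul_le_mul_of_nonneg_right hN' hω.le)
    exact s1 _ _ _ _ _ _ (s1 _ _ _ _ _ _ g1 (s2 _ _ _ g2)) g3
  · filter_upwards [hW2, hD1, hD2, eventually_ge_atTop 2] with a h2 d1 d2 ha
    intro n hn
    obtain ⟨i1, i2⟩ := hI a j0 j j ω _ T₂ B₂ (Lam₂ a) n ha hω hx2 le_rfl hn h2
    rw [Finset.sum_add_distrib, Finset.sum_add_distrib, Finset.sum_neg_distrib, i1, i2]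
    have e1 := d1 n hn
    have e2 := d2 n hn
    have hI0 := ind_nonneg a ω j0 j n
    have hI1 := ind_le a ω j0 j n
    rw [ind_succ a ω j0 j n hj]
    set e : ℕ := ej a ω j n with he
    set I : ℝ := ind a ω j0 j n with hId
    rcases Nat.eq_zero_or_pos e with h0 | h0
    · rw [if_pos h0, h0]
      push_cast
      linarith
    · rw [if_neg (by omega)]
      have he1 : (1 : ℝ) ≤ e := by exact_mod_cast h0
      have he2 : (0 : ℝ) ≤ ((e : ℝ) - 1) * ((e : ℝ) - 2) := by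
        rcases Nat.lt_or_ge e 2 with h | h
        · have : e = 1 := by omega
          rw [this]; norm_num
        · have : (2 : ℝ) ≤ e := by exact_mod_cast h
          exact mul_nonneg (by linarith) (by linarith)
      nlinarith [mul_le_mul_of_nonneg_left e2 (by linarith : (0 : ℝ) ≤ e),
        mul_nonneg (by linarith : (0 : ℝ) ≤ (e : ℝ) - 1) (by linarith : (0 : ℝ) ≤ 1 - I)]
  · have hev : ∀ᶠ a : ℕ in atTop, ms a (Lam₁ a) - (∑ p ∈ bx a ω j, (1 : ℝ) / p) * ms a (Lam₂ a) +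
        ms a (pr2 a ω j) =
        ms a (fun q => (Lam₁ a q + - bm a ω j (Lam₂ a) q) + pr2 a ω j q) := by
      filter_upwards [hW2, eventually_ge_atTop 1] with a h2 ha
      have m1 := hMB a j0 j j ω _ T₂ B₂ (Lam₂ a) ha hω hx2 (by rw [hsum]; exact hNω) h2
      rw [ms_add a (fun q => Lam₁ a q + - bm a ω j (Lam₂ a) q) (pr2 a ω j),
        ms_add a (Lam₁ a) (fun q => - bm a ω j (Lam₂ a) q), ms_neg a (bm a ω j (Lam₂ a)), m1]
      ring
    refine Tendsto.congr' hev ?_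
    exact ((hT1.sub ((hM ω j hω (by omega)).mul hT2)).add (hPA ω j hω (by omega) hjω))

end Pool.Agent.Helper49.TW
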